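import Mathlib

namespace Pool.Agent.Results.MP_ba12ad_co.Counter

/-- No loop, no directed 2-cycle and no directed triangle. -/
def C3Free {V : Type} (G : V → V → Prop) : Prop :=
  (∀ v, ¬ G v v) ∧ (∀ u v, G u v → ¬ G v u) ∧ (∀ u v w, G u v → G v w → ¬ G w u)

/-- `C_{≤3}`-free, and adding any missing arc `u → v` (`u ≠ v`) destroys this. -/
def MaxFree {V : Type} (G : V → V → Prop) : Prop :=
  C3Free G ∧ ∀ u v, u ≠ v → ¬ G u v → ¬ C3Free (fun a b => G a b ∨ (a = u ∧ b = v))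

/-- `X` is a homogeneous set of `G`. -/
def Homog {V : Type} [Fintype V] (G : V → V → Prop) (X : Finset V) : Prop :=
  2 ≤ X.card ∧ X.card < Fintype.card V ∧
    ∀ w, w ∉ X → (∀ x ∈ X, G w x) ∨ (∀ x ∈ X, G x w) ∨ (∀ x ∈ X, ¬ G w x ∧ ¬ G x w)

/-- The outdegree of `v`. -/
noncomputable def outdeg {V : Type} (G : V → V → Prop) (v : V) : ℕ := {w | G v w}.ncard

/-- The Cayley digraph of `ZMod n` with connection set `S`. -/
def Cay (n : ℕ) (S : Finset ℕ) (a b : ZMod n) : Prop := ∃ j ∈ S, b = a + (j : ZMod n)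

/-- `G` is isomorphic to some circular interval digraph `C_{3k+1}^k`, `k ≥ 1`. -/
def IsCirc {V : Type} (G : V → V → Prop) : Prop :=
  ∃ k : ℕ, 1 ≤ k ∧ ∃ e : V ≃ ZMod (3 * k + 1),
    ∀ a b, G a b ↔ Cay (3 * k + 1) (Finset.Icc 1 k) (e a) (e b)

/-- The statement of Q1. -/
def Conjecture : Prop :=
  ∀ (V : Type) [Fintype V] (G : V → V → Prop), MaxFree G → (∀ X, ¬ Homog G X) →
    (∀ v, 4 * Fintype.card V < 15 * outdeg G v) → IsCirc G

/-- The Cayley digraph of `ZMod (3k+2)` with connection set `{1, …, k-1} ∪ {k+1}`. -/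
def Fam (k : ℕ) : ZMod (3 * k + 2) → ZMod (3 * k + 2) → Prop :=
  Cay (3 * k + 2) (insert (k + 1) (Finset.Icc 1 (k - 1)))

lemma eq_add_iff (n : ℕ) [NeZero n] (a b : ZMod n) (j : ℕ) (hj : j < n) :
    b = a + (j : ZMod n) ↔ (a.val + j = b.val ∨ a.val + j = b.val + n) := by
  have ha := ZMod.val_lt a
  have hb := ZMod.val_lt b
  have h : (a + (j : ZMod n)).val = (a.val + j) % n := by
    rw [ZMod.val_add, ZMod.val_natCast, Nat.mod_eq_of_lt hj]
  have h2 : (a.val + j) % n = if a.val + j < n then a.val + j else a.val + j - n := by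
    split_ifs with h3
    · exact Nat.mod_eq_of_lt h3
    · rw [Nat.mod_eq_sub_mod (by omega), Nat.mod_eq_of_lt (by omega)]
  constructor
  · intro e
    have := congrArg ZMod.val e
    rw [h, h2] at this
    split_ifs at this <;> omega
  · intro e
    apply ZMod.val_injective
    rw [h, h2]
    split_ifs <;> omega

lemma fam_iff (k : ℕ) (a b : ZMod (3 * k + 2)) :
    Fam k a b ↔ ((a.val + 1 ≤ b.val ∧ b.val + 1 ≤ a.val + k) ∨ a.val + k + 1 = b.val ∨
      (a.val + 1 ≤ b.val + (3 * k + 2) ∧ b.val + (3 * k + 2) + 1 ≤ a.val + k) ∨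
      a.val + k + 1 = b.val + (3 * k + 2)) := by
  unfold Fam Cay
  constructor
  · rintro ⟨j, hj, e⟩
    simp only [Finset.mem_insert, Finset.mem_Icc] at hj
    rw [eq_add_iff _ _ _ _ (by omega)] at e
    omega
  · intro h
    rcases h with h | h | h | h
    · refine ⟨b.val - a.val, by simp only [Finset.mem_insert, Finset.mem_Icc]; omega, ?_⟩
      rw [eq_add_iff _ _ _ _ (by omega)]; omega
    · refine ⟨k + 1, by simp, ?_⟩
      rw [eq_add_iff _ _ _ _ (by omega)]; omega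
    · refine ⟨b.val + (3 * k + 2) - a.val,
        by simp only [Finset.mem_insert, Finset.mem_Icc]; omega, ?_⟩
      rw [eq_add_iff _ _ _ _ (by omega)]; omega
    · refine ⟨k + 1, by simp, ?_⟩
      rw [eq_add_iff _ _ _ _ (by omega)]; omega

lemma free (k : ℕ) (hk : 3 ≤ k) : C3Free (Fam k) := by
  refine ⟨fun v h => ?_, fun u v h1 h2 => ?_, fun u v w h1 h2 h3 => ?_⟩
  · rw [fam_iff] at h
    have := ZMod.val_lt v
    generalize v.val = x at *
    omega
  · rw [fam_iff] at h1 h2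
    have := ZMod.val_lt u; have := ZMod.val_lt v; omega
  · rw [fam_iff] at h1 h2 h3
    have := ZMod.val_lt u; have := ZMod.val_lt v; have := ZMod.val_lt w; omega

lemma arc (k : ℕ) (a : ZMod (3 * k + 2)) (j : ℕ) (h : j = k + 1 ∨ (1 ≤ j ∧ j ≤ k - 1)) :
    Fam k a (a + (j : ZMod (3 * k + 2))) :=
  ⟨j, by simpa only [Finset.mem_insert, Finset.mem_Icc] using h, rfl⟩

lemma val_add (k : ℕ) (a : ZMod (3 * k + 2)) (j : ℕ) (hj : j < 3 * k + 2) :
    a.val + j = (a + (j : ZMod (3 * k + 2))).val ∨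
      a.val + j = (a + (j : ZMod (3 * k + 2))).val + (3 * k + 2) :=
  (eq_add_iff _ a _ j hj).1 rfl

lemma maxfree (k : ℕ) (hk : 3 ≤ k) : MaxFree (Fam k) := by
  refine ⟨free k hk, fun u v huv hn hc => ?_⟩
  have hne : u.val ≠ v.val := fun e => huv (ZMod.val_injective _ e)
  have hu := ZMod.val_lt u
  have hv := ZMod.val_lt v
  have h2 : ¬ Fam k v u := fun h => hc.2.1 u v (Or.inr ⟨rfl, rfl⟩) (Or.inl h)
  have h3 : ∀ j, (j = k + 1 ∨ (1 ≤ j ∧ j ≤ k - 1)) →
      ¬ Fam k (v + (j : ZMod (3 * k + 2))) u := fun j hj h =>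
    hc.2.2 u v _ (Or.inr ⟨rfl, rfl⟩) (Or.inl (arc k v j hj)) (Or.inl h)
  have a1 := h3 1 (by omega)
  have a2 := h3 (k + 1) (by omega)
  have a3 := h3 2 (by omega)
  have b1 := val_add k v 1 (by omega)
  have b2 := val_add k v (k + 1) (by omega)
  have b3 := val_add k v 2 (by omega)
  have c1 := ZMod.val_lt (v + ((1 : ℕ) : ZMod (3 * k + 2)))
  have c2 := ZMod.val_lt (v + ((k + 1 : ℕ) : ZMod (3 * k + 2)))
  have c3 := ZMod.val_lt (v + ((2 : ℕ) : ZMod (3 * k + 2)))
  rw [fam_iff] at hn h2 a1 a2 a3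
  omega

lemma boundary (n : ℕ) [NeZero n] (X : Finset (ZMod n)) (h1 : X.Nonempty)
    (h2 : X.card < Fintype.card (ZMod n)) :
    ∃ a ∈ X, a + ((1 : ℕ) : ZMod n) ∉ X := by
  by_contra hc
  push Not at hc
  obtain ⟨a, ha⟩ := h1
  have : ∀ m : ℕ, a + (m : ZMod n) ∈ X := by
    intro m
    induction m with
    | zero => simpa using ha
    | succ m ih => have := hc _ ih; push_cast at this ⊢; rwa [add_assoc] at this
  have hX : X = Finset.univ := by
    apply Finset.eq_univ_of_forall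
    intro b
    have := this (b - a).val
    simpa using this
  rw [hX, Finset.card_univ] at h2
  exact lt_irrefl _ h2

lemma nohom (k : ℕ) (hk : 3 ≤ k) (X : Finset (ZMod (3 * k + 2))) : ¬ Homog (Fam k) X := by
  rintro ⟨h2, hl, h⟩
  obtain ⟨a, ha, ha1⟩ := boundary _ X (Finset.card_pos.1 (by omega)) hl
  have key : ∀ w, w ∉ X → Fam k a w → ∀ x ∈ X, Fam k x w := by
    intro w hw haw
    rcases h w hw with h | h | h
    · exact absurd (h a ha) ((free k hk).2.1 _ _ haw)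
    · exact h
    · exact absurd haw (h a ha).2
  obtain ⟨x, hx, hxa⟩ := Finset.exists_mem_ne (by omega : 1 < X.card) a
  have hne : x.val ≠ a.val := fun e => hxa (ZMod.val_injective _ e)
  have e1 := key _ ha1 (arc k a 1 (by omega))
  have b1 := val_add k a 1 (by omega)
  have b2 := val_add k a (k + 1) (by omega)
  have c0 := ZMod.val_lt a
  have cx := ZMod.val_lt x
  have c1 := ZMod.val_lt (a + ((1 : ℕ) : ZMod (3 * k + 2)))
  have c2 := ZMod.val_lt (a + ((k + 1 : ℕ) : ZMod (3 * k + 2)))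
  have hw : a + ((k + 1 : ℕ) : ZMod (3 * k + 2)) ∉ X := by
    intro hw
    have := e1 _ hw
    rw [fam_iff] at this
    omega
  have e2 := key _ hw (arc k a (k + 1) (by omega)) x hx
  have e3 := e1 x hx
  rw [fam_iff] at e2 e3
  omega

lemma deg (k : ℕ) (hk : 3 ≤ k) (v : ZMod (3 * k + 2)) : outdeg (Fam k) v = k := by
  unfold outdeg
  have : {w | Fam k v w} = ((insert (k + 1) (Finset.Icc 1 (k - 1))).image
      (fun j : ℕ => v + (j : ZMod (3 * k + 2))) : Finset _) := by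
    ext w
    simp only [Set.mem_ofPred_eq, Finset.coe_image, Set.mem_image, Finset.mem_coe, Fam, Cay]
    constructor
    · rintro ⟨j, hj, e⟩; exact ⟨j, hj, e.symm⟩
    · rintro ⟨j, hj, e⟩; exact ⟨j, hj, e.symm⟩
  rw [this, Set.ncard_coe_finset, Finset.card_image_of_injOn,
    Finset.card_insert_of_notMem (by simp only [Finset.mem_Icc]; omega), Nat.card_Icc]
  · omega
  · intro i hi j hj e
    simp only [Finset.coe_insert, Finset.coe_Icc, Set.mem_insert_iff, Set.mem_Icc] at hi hj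
    have e' : (i : ZMod (3 * k + 2)) = j := add_left_cancel e
    have := congrArg ZMod.val e'
    rwa [ZMod.val_natCast, ZMod.val_natCast, Nat.mod_eq_of_lt (by omega),
      Nat.mod_eq_of_lt (by omega)] at this

lemma notcirc (k : ℕ) : ¬ IsCirc (Fam k) := by
  rintro ⟨m, -, e, -⟩
  have := Fintype.card_congr e
  rw [ZMod.card, ZMod.card] at this
  omega

theorem result : ¬ Conjecture ∧ ∀ k : ℕ, 3 ≤ k →
    MaxFree (Fam k) ∧ (∀ X, ¬ Homog (Fam k) X) ∧ (∀ v, outdeg (Fam k) v = k) ∧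
      ¬ IsCirc (Fam k) := by
  refine ⟨fun h => notcirc 3 (h _ (Fam 3) (maxfree 3 le_rfl) (nohom 3 le_rfl) fun v => ?_),
    fun k hk => ⟨maxfree k hk, nohom k hk, deg k hk, notcirc k⟩⟩
  rw [deg 3 le_rfl, ZMod.card]
  norm_num

end Pool.Agent.Results.MP_ba12ad_co.Counter
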